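import Pool.Agent.U398.MV.Stm4

/-!
# Project MV4, package MM, part 1: zeta near the line `1`, the variances, measurability
-/

set_option autoImplicit false

namespace Pool.Agent.U688.MV4

open MeasureTheory Filter Topology Set Pool.Agent.U398.MV
open scoped Nat

/-- `(s - 1) ζ(s)` with the right value at `1` -/
noncomputable def fz : ℂ → ℂ := Function.update (fun s : ℂ => (s - 1) * riemannZeta s) 1 1

theorem fz_cont : Continuous fz := by
  rw [continuous_iff_continuousAt]
  intro s
  by_cases hs : s = 1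
  · subst hs
    exact continuousAt_update_same.2 riemannZeta_residue_one
  · refine (continuousAt_update_of_ne hs).2 ?_
    exact ((continuous_id.sub continuous_const).continuousAt).mul
      (differentiableAt_riemannZeta hs).continuousAt

theorem fz_ne {s : ℂ} (hs : 1 ≤ s.re) : fz s ≠ 0 := by
  unfold fz
  by_cases h : s = 1
  · subst h; simp
  · rw [Function.update_of_ne h]
    exact mul_ne_zero (sub_ne_zero.2 h) (riemannZeta_ne_zero_of_one_le_re hs)

theorem zeta_bound (B : ℝ) : ∃ C : ℝ, 0 < C ∧ ∀ L y : ℝ, 1 ≤ L → |y| ≤ B →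
    |Real.log ‖riemannZeta (((1 + 1 / L : ℝ) : ℂ) + (y : ℂ) * Complex.I)‖ - Real.log L +
      Real.log (1 + |y| * L / (2 * Real.pi))| ≤ C := by
  have hK : IsCompact (Icc (1:ℝ) 2 ×ℂ Icc (-B) B) := isCompact_Icc.reProdIm isCompact_Icc
  have hc : ContinuousOn (fun s => Real.log ‖fz s‖) (Icc (1:ℝ) 2 ×ℂ Icc (-B) B) := by
    refine ContinuousOn.log (fz_cont.norm.continuousOn) ?_
    intro s hs
    exact norm_ne_zero_iff.2 (fz_ne hs.1.1)
  obtain ⟨C0, hC0⟩ := hK.exists_bound_of_continuousOn hc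
  have hpi := Real.pi_gt_three
  have hlp : 0 ≤ Real.log (2 * Real.pi) := Real.log_nonneg (by linarith)
  refine ⟨|C0| + Real.log (2 * Real.pi) + 1, by positivity, ?_⟩
  intro L y hL hy
  have hL0 : 0 < L := by linarith
  set s : ℂ := ((1 + 1 / L : ℝ) : ℂ) + (y : ℂ) * Complex.I with hs
  have hre : s.re = 1 + 1 / L := by simp [hs]
  have him : s.im = y := by simp [hs]
  have hL1 : 1 / L ≤ 1 := by rw [div_le_one hL0]; exact hL
  have hL2 : 0 < 1 / L := by positivity
  have hmem : s ∈ Icc (1:ℝ) 2 ×ℂ Icc (-B) B := by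
    rw [Complex.mem_reProdIm, hre, him]
    exact ⟨⟨by linarith, by linarith⟩, abs_le.1 hy⟩
  have hne : s ≠ 1 := by
    intro h
    have h' := congrArg Complex.re h
    rw [hre, Complex.one_re] at h'
    linarith
  have h1 := hC0 s hmem
  have h2 : fz s = (s - 1) * riemannZeta s := by
    unfold fz; rw [Function.update_of_ne hne]
  have hz : riemannZeta s ≠ 0 := riemannZeta_ne_zero_of_one_le_re (by rw [hre]; linarith)
  have hs1 : s - 1 ≠ 0 := sub_ne_zero.2 hne
  rw [h2, norm_mul, Real.log_mul (norm_ne_zero_iff.2 hs1) (norm_ne_zero_iff.2 hz),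
    Real.norm_eq_abs] at h1
  have hre1 : (s - 1).re = 1 / L := by rw [Complex.sub_re, hre, Complex.one_re]; ring
  have him1 : (s - 1).im = y := by rw [Complex.sub_im, him, Complex.one_im]; ring
  have b1 : 1 / L ≤ ‖s - 1‖ := by
    have := Complex.abs_re_le_norm (s - 1)
    rw [hre1, abs_of_pos hL2] at this
    exact this
  have b2 : |y| ≤ ‖s - 1‖ := by
    have := Complex.abs_im_le_norm (s - 1)
    rwa [him1] at this
  have b3 : ‖s - 1‖ ≤ 1 / L + |y| := by
    have := Complex.norm_le_abs_re_add_abs_im (s - 1)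
    rwa [hre1, him1, abs_of_pos hL2] at this
  set n : ℝ := ‖s - 1‖ with hn
  have hn0 : 0 < n := lt_of_lt_of_le hL2 b1
  set v : ℝ := |y| * L with hv
  have hv0 : 0 ≤ v := by positivity
  have c1 : 1 ≤ n * L := by
    rw [div_le_iff₀ hL0] at b1; linarith
  have c2 : v ≤ n * L := mul_le_mul_of_nonneg_right b2 hL0.le
  have c3 : n * L ≤ 1 + v := by
    have := mul_le_mul_of_nonneg_right b3 hL0.le
    rw [add_mul, one_div, inv_mul_cancel₀ hL0.ne'] at this
    exact this
  have hnL : Real.log (n * L) = Real.log n + Real.log L :=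
    Real.log_mul hn0.ne' hL0.ne'
  have hvp : 0 < 1 + v / (2 * Real.pi) := by positivity
  have hvm : v / (2 * Real.pi) ≤ v := div_le_self hv0 (by linarith)
  have d1 : Real.log (n * L) ≤ Real.log (2 * Real.pi) + Real.log (1 + v / (2 * Real.pi)) := by
    rw [← Real.log_mul (by positivity) hvp.ne']
    refine Real.log_le_log (by positivity) ?_
    have : 2 * Real.pi * (1 + v / (2 * Real.pi)) = 2 * Real.pi + v := by field_simp
    rw [this]
    linarith
  have d2 : Real.log (1 + v / (2 * Real.pi)) ≤ Real.log (2 * Real.pi) + Real.log (n * L) := by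
    rw [← Real.log_mul (by positivity) (by positivity)]
    refine Real.log_le_log hvp ?_
    nlinarith
  have e1 := abs_le.1 (h1.trans (le_abs_self C0))
  rw [abs_le]
  constructor
  · linarith [e1.1]
  · linarith [e1.2]

theorem sum_bound {m : ℕ} (c : Fin m → ℝ) (q : Fin m → Fin m → ℝ) (D : ℝ) (hD : 0 ≤ D)
    (hc : (∑ i, |c i|) ≤ 1) (hq : ∀ i j, |q i j| ≤ D) :
    |∑ i, ∑ j, c i * c j * q i j| ≤ D := by
  have h0 : 0 ≤ ∑ i, |c i| := Finset.sum_nonneg fun i _ => abs_nonneg _
  calc |∑ i, ∑ j, c i * c j * q i j| ≤ ∑ i, |∑ j, c i * c j * q i j| :=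
        Finset.abs_sum_le_sum_abs _ _
    _ ≤ ∑ i, ∑ j, |c i| * |c j| * D := by
        refine Finset.sum_le_sum fun i _ => (Finset.abs_sum_le_sum_abs _ _).trans ?_
        refine Finset.sum_le_sum fun j _ => ?_
        rw [abs_mul, abs_mul]
        exact mul_le_mul_of_nonneg_left (hq i j) (by positivity)
    _ = (∑ i, |c i|) * (∑ j, |c j|) * D := by
        rw [Finset.sum_mul_sum, Finset.sum_mul]
        refine Finset.sum_congr rfl fun i _ => ?_
        rw [Finset.sum_mul]
    _ ≤ 1 * 1 * D := by gcongr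
    _ = D := by ring

theorem log_ge_one {T : ℝ} (hT : 10 ≤ T) : 1 ≤ Real.log T := by
  rw [Real.le_log_iff_exp_le (by linarith)]
  linarith [Real.exp_one_lt_d9]

theorem var_cmp (B : ℝ) : ∃ C : ℝ, 0 < C ∧ ∀ (T : ℝ), 10 ≤ T → ∀ (m : ℕ) (c x : Fin m → ℝ),
    (∑ i, |c i|) ≤ 1 → (∑ i, c i) = 0 → (∀ i, 0 ≤ x i ∧ x i ≤ B) →
    |Vh T c x - VL (Real.log T) c x| ≤ C := by
  obtain ⟨C, hC, hb⟩ := zeta_bound B
  refine ⟨C, hC, ?_⟩
  intro T hT m c x hc h0 hx
  have hL : 1 ≤ Real.log T := log_ge_one hT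
  have hz : ∑ i, ∑ j, c i * c j * (1 / (2 * Real.pi ^ 2) * Real.log (Real.log T)) = 0 := by
    have : ∀ i, ∑ j, c i * c j * (1 / (2 * Real.pi ^ 2) * Real.log (Real.log T)) =
        c i * (∑ j, c j) * (1 / (2 * Real.pi ^ 2) * Real.log (Real.log T)) := by
      intro i
      rw [Finset.mul_sum, Finset.sum_mul]
    simp only [this, h0, mul_zero, zero_mul, Finset.sum_const_zero]
  have e : Vh T c x - VL (Real.log T) c x = ∑ i, ∑ j, c i * c j * (1 / (2 * Real.pi ^ 2) *
      (Real.log ‖riemannZeta (((1 + 1 / Real.log T : ℝ) : ℂ) + ((x i - x j : ℝ) : ℂ) * Complex.I)‖ -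
        Real.log (Real.log T) + Real.log (1 + |x i - x j| * Real.log T / (2 * Real.pi)))) := by
    have e2 : ∀ i j, c i * c j * (1 / (2 * Real.pi ^ 2) *
      (Real.log ‖riemannZeta (((1 + 1 / Real.log T : ℝ) : ℂ) + ((x i - x j : ℝ) : ℂ) * Complex.I)‖ -
        Real.log (Real.log T) + Real.log (1 + |x i - x j| * Real.log T / (2 * Real.pi)))) =
        c i * c j * (1 / (2 * Real.pi ^ 2) *
          Real.log ‖riemannZeta (((1 + 1 / Real.log T : ℝ) : ℂ) +
            ((x i - x j : ℝ) : ℂ) * Complex.I)‖) -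
        c i * c j * (1 / (2 * Real.pi ^ 2) * Real.log (Real.log T)) +
        1 / (2 * Real.pi ^ 2) * (c i * c j *
          Real.log (1 + |x i - x j| * Real.log T / (2 * Real.pi))) := by
      intro i j; ring
    simp only [e2, Finset.sum_add_distrib, Finset.sum_sub_distrib, hz, ← Finset.mul_sum]
    unfold Vh VL
    ring
  rw [e]
  refine sum_bound c _ C hC.le hc ?_
  intro i j
  have hxy : |x i - x j| ≤ B := by
    rw [abs_le]
    constructor <;> linarith [(hx i).1, (hx i).2, (hx j).1, (hx j).2]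
  have h1 := hb (Real.log T) (x i - x j) hL hxy
  rw [abs_mul]
  have h5 : |1 / (2 * Real.pi ^ 2)| ≤ 1 := by
    rw [abs_of_pos (by positivity), div_le_one (by positivity)]
    nlinarith [Real.pi_gt_three]
  calc _ ≤ 1 * C := mul_le_mul h5 h1 (abs_nonneg _) zero_le_one
    _ = C := one_mul _

theorem VL_bound {m : ℕ} (L r : ℝ) (c x : Fin m → ℝ) (hL : 0 ≤ L) (hr : 1 ≤ r)
    (hc : (∑ i, |c i|) ≤ 1) (hx : ∀ i, 0 ≤ x i ∧ x i * L ≤ 2 * Real.pi * r) :
    |VL L c x| ≤ 1 + Real.log r := by
  unfold VL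
  have hlr : 0 ≤ Real.log r := Real.log_nonneg hr
  have hpi := Real.pi_pos
  have h1 : |∑ i, ∑ j, c i * c j * Real.log (1 + |x i - x j| * L / (2 * Real.pi))| ≤
      1 + Real.log r := by
    refine sum_bound c _ _ (by linarith) hc ?_
    intro i j
    have h2 : |x i - x j| * L ≤ 2 * Real.pi * r := by
      have h3 : |x i - x j| ≤ max (x i) (x j) := by
        rw [abs_le]
        have a1 := (hx i).1
        have a2 := (hx j).1
        have a3 := le_max_left (x i) (x j)
        have a4 := le_max_right (x i) (x j)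
        constructor <;> linarith
      calc _ ≤ max (x i) (x j) * L := mul_le_mul_of_nonneg_right h3 hL
        _ ≤ _ := by
          rcases max_cases (x i) (x j) with h | h
          · rw [h.1]; exact (hx i).2
          · rw [h.1]; exact (hx j).2
    have h3 : 0 ≤ |x i - x j| * L / (2 * Real.pi) := by positivity
    have h4 : |x i - x j| * L / (2 * Real.pi) ≤ r := by
      rw [div_le_iff₀ (by positivity)]; linarith
    rw [abs_of_nonneg (Real.log_nonneg (by linarith))]
    calc Real.log (1 + |x i - x j| * L / (2 * Real.pi)) ≤ Real.log (2 * r) :=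
          Real.log_le_log (by linarith) (by linarith)
      _ = Real.log 2 + Real.log r := Real.log_mul (by norm_num) (by linarith)
      _ ≤ 1 + Real.log r := by have := Real.log_two_lt_d9; linarith
  rw [abs_mul]
  have h5 : |-(1 / (2 * Real.pi ^ 2))| ≤ 1 := by
    rw [abs_neg, abs_of_pos (by positivity), div_le_one (by positivity)]
    nlinarith [Real.pi_gt_three]
  calc _ ≤ 1 * (1 + Real.log r) := mul_le_mul h5 h1 (abs_nonneg _) zero_le_one
    _ = _ := one_mul _

/-! ### measurability -/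

theorem Mf_cont : Continuous Mf := by
  have h : Mf = fun t => (fun u : ℝ => u * Real.log u - u) (t / (2 * Real.pi)) := by
    funext t; unfold Mf; ring
  rw [h]
  exact (Real.continuous_mul_log.sub continuous_id).comp (continuous_id.div_const _)

theorem meas_sg {N : ℝ → ℕ} (hN : Monotone N) : Measurable (sg N) := by
  unfold sg
  exact (measurable_from_top.comp hN.measurable).sub Mf_cont.measurable

theorem bdd_sg {N : ℝ → ℕ} (hN : Monotone N) (a b : ℝ) :
    ∃ M : ℝ, 0 ≤ M ∧ ∀ t, a ≤ t → t ≤ b → |sg N t| ≤ M := by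
  obtain ⟨C, hC⟩ := (isCompact_Icc (a := a) (b := b)).exists_bound_of_continuousOn
    Mf_cont.continuousOn
  refine ⟨N b + |C|, by positivity, ?_⟩
  intro t h1 h2
  have h3 := hC t ⟨h1, h2⟩
  have h4 : (N t : ℝ) ≤ N b := by exact_mod_cast hN h2
  have h5 : (0 : ℝ) ≤ N t := Nat.cast_nonneg _
  unfold sg
  rw [Real.norm_eq_abs] at h3
  rw [abs_le] at h3 ⊢
  have h6 := le_abs_self C
  constructor <;> linarith [h3.1, h3.2, (Nat.cast_nonneg (N b) : (0 : ℝ) ≤ N b)]

theorem meas_Gf {N : ℝ → ℕ} (hN : Monotone N) {m : ℕ} (c x : Fin m → ℝ) :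
    Measurable (Gf N c x) := by
  unfold Gf
  exact Finset.measurable_sum _ fun i _ =>
    ((meas_sg hN).comp (measurable_id.add_const _)).const_mul _

theorem bdd_Gf {N : ℝ → ℕ} (hN : Monotone N) {m : ℕ} (c x : Fin m → ℝ) (a b : ℝ) :
    ∃ M : ℝ, 0 ≤ M ∧ ∀ t, a ≤ t → t ≤ b → |Gf N c x t| ≤ M := by
  choose M hM0 hM using fun i => bdd_sg hN (a + x i) (b + x i)
  refine ⟨∑ i, |c i| * M i, Finset.sum_nonneg fun i _ => mul_nonneg (abs_nonneg _) (hM0 i),
    fun t h1 h2 => ?_⟩
  unfold Gf
  refine (Finset.abs_sum_le_sum_abs _ _).trans (Finset.sum_le_sum fun i _ => ?_)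
  rw [abs_mul]
  exact mul_le_mul_of_nonneg_left (hM i _ (by linarith) (by linarith)) (abs_nonneg _)

theorem ii_of_bdd {f : ℝ → ℝ} {a b M : ℝ} (hab : a ≤ b) (hf : AEStronglyMeasurable f volume)
    (hM : ∀ᵐ t, t ∈ Ioc a b → |f t| ≤ M) : IntervalIntegrable f volume a b := by
  rw [intervalIntegrable_iff_integrableOn_Ioc_of_le hab]
  refine Measure.integrableOn_of_bounded (M := M) (by simp) hf ?_
  rw [ae_restrict_iff' measurableSet_Ioc]
  exact hM

theorem meas_zeta : Measurable riemannZeta := by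
  refine measurable_of_continuousOn_compl_singleton 1 ?_
  intro s hs
  exact (differentiableAt_riemannZeta hs).continuousAt.continuousWithinAt

theorem meas_logDeriv : Measurable (logDeriv riemannZeta) := by
  unfold logDeriv
  exact (measurable_deriv riemannZeta).div meas_zeta

theorem cont_line : Continuous fun u : ℝ =>
    (logDeriv riemannZeta ((2 : ℂ) + u * Complex.I)).re := by
  have hne : ∀ u : ℝ, (2 : ℂ) + u * Complex.I ≠ 1 := by
    intro u h
    have := congrArg Complex.re h
    simp at this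
  have hD : DifferentiableOn ℂ riemannZeta {1}ᶜ := fun s hs =>
    (differentiableAt_riemannZeta hs).differentiableWithinAt
  have hD' := hD.deriv isOpen_compl_singleton
  refine Complex.continuous_re.comp ?_
  simp only [logDeriv_apply]
  refine Continuous.div ?_ ?_ ?_
  · exact hD'.continuousOn.comp_continuous (by fun_prop) (fun u => hne u)
  · exact hD.continuousOn.comp_continuous (by fun_prop) (fun u => hne u)
  · intro u
    exact riemannZeta_ne_zero_of_one_le_re (by simp)

theorem meas_seg : StronglyMeasurable fun t : ℝ =>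
    ∫ x in (1 / 2 : ℝ)..2, (logDeriv riemannZeta ((x : ℂ) + t * Complex.I)).im := by
  have h : (fun t : ℝ => ∫ x in (1 / 2 : ℝ)..2,
      (logDeriv riemannZeta ((x : ℂ) + t * Complex.I)).im) = fun t : ℝ =>
      ∫ x, (fun (t x : ℝ) => (logDeriv riemannZeta ((x : ℂ) + t * Complex.I)).im) t x
        ∂(volume.restrict (Ioc (1 / 2 : ℝ) 2)) := by
    funext t
    rw [intervalIntegral.integral_of_le (by norm_num)]
  rw [h]
  apply StronglyMeasurable.integral_prod_right
  apply Measurable.stronglyMeasurable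
  refine Complex.measurable_im.comp (meas_logDeriv.comp ?_)
  fun_prop

theorem meas_pS : Measurable pS := by
  unfold pS
  refine Measurable.const_mul ?_ _
  refine Measurable.sub ?_ meas_seg.measurable
  exact (intervalIntegral.continuous_primitive
    (fun a b => cont_line.intervalIntegrable a b) 0).measurable

end Pool.Agent.U688.MV4
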