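import Pool.Agent.U688.MV4.MMc

/-!
# Project MV4, package MM: all moments of the fluctuations of the zeros of zeta
-/

set_option autoImplicit false

namespace Pool.Agent.U688.MV4

open MeasureTheory Filter Topology Set Pool.Agent.U398.MV
open scoped Nat

/-- the second part of `Mom` -/
def M2 (N : ℝ → ℕ) : Prop :=
  ∀ (k : ℕ) (B : ℝ), ∃ C T0 : ℝ, 0 < C ∧ 10 ≤ T0 ∧ ∀ T : ℝ, T0 ≤ T →
    ∀ (m : ℕ) (c x : Fin m → ℝ) (r : ℝ),
    (∑ i, |c i|) ≤ 1 → (∑ i, c i) = 0 → 1 ≤ r →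
    (∀ i, 0 ≤ x i ∧ x i ≤ B ∧ x i * Real.log T ≤ 2 * Real.pi * r) →
    |1 / T * (∫ t in T..(2 * T), Gf N c x t ^ k) - gM k (VL (Real.log T) c x)| ≤
      C * (1 + Real.log r) ^ (((k : ℝ) - 1) / 2)

theorem block {N : ℝ → ℕ} (h2 : M2 N) (p : ℕ) (B : ℝ) :
    ∃ C T0 : ℝ, 0 < C ∧ 10 ≤ T0 ∧ ∀ T : ℝ, T0 ≤ T → ∀ h r : ℝ, 0 ≤ h → h ≤ B → 1 ≤ r →
      h * Real.log T ≤ 2 * Real.pi * r →
      (∫ t in T..(2 * T), (sg N t - sg N (t + h)) ^ (2 * p)) ≤
        C * T * (1 + Real.log r) ^ p := by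
  obtain ⟨C, T0, hC, hT0, H⟩ := h2 (2 * p) B
  obtain ⟨D, hD, HD⟩ := gM_bd p
  refine ⟨4 ^ p * (C + D), T0, by positivity, hT0, ?_⟩
  intro T hT h r hh hB hr hL
  have hT10 : 10 ≤ T := hT0.trans hT
  have hTp : 0 < T := by linarith
  have hl : 1 ≤ Real.log T := log_ge_one hT10
  have hlr : 0 ≤ Real.log r := Real.log_nonneg hr
  have hpi := Real.pi_pos
  have hc1 : (∑ i, |(![1 / 2, -(1 / 2)] : Fin 2 → ℝ) i|) ≤ 1 := by
    rw [Fin.sum_univ_two]
    simp only [Matrix.cons_val_zero, Matrix.cons_val_one]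
    rw [abs_neg, abs_of_pos (by norm_num : (0 : ℝ) < 1 / 2)]
    norm_num
  have hc0 : (∑ i, (![1 / 2, -(1 / 2)] : Fin 2 → ℝ) i) = 0 := by
    rw [Fin.sum_univ_two]
    simp only [Matrix.cons_val_zero, Matrix.cons_val_one]
    norm_num
  have hx : ∀ i, 0 ≤ (![0, h] : Fin 2 → ℝ) i ∧ (![0, h] : Fin 2 → ℝ) i ≤ B ∧
      (![0, h] : Fin 2 → ℝ) i * Real.log T ≤ 2 * Real.pi * r := by
    intro i
    fin_cases i
    · simp only [Fin.zero_eta, Matrix.cons_val_zero]
      refine ⟨le_refl _, hh.trans hB, ?_⟩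
      rw [zero_mul]
      positivity
    · simp only [Fin.mk_one, Matrix.cons_val_one]
      exact ⟨hh, hB, hL⟩
  have h1 := H T hT 2 ![1 / 2, -(1 / 2)] ![0, h] r hc1 hc0 hr hx
  have hV := VL_bound (Real.log T) r ![1 / 2, -(1 / 2)] ![0, h] (by linarith) hr hc1
    (fun i => ⟨(hx i).1, (hx i).2.2⟩)
  have h3 := HD _ _ hV (by linarith)
  have h4 : (1 + Real.log r) ^ ((((2 * p : ℕ) : ℝ) - 1) / 2) ≤ (1 + Real.log r) ^ p := by
    rw [← Real.rpow_natCast (1 + Real.log r) p]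
    refine Real.rpow_le_rpow_of_exponent_le (by linarith) ?_
    push_cast
    linarith
  have h5 : (fun t => Gf N ![1 / 2, -(1 / 2)] ![0, h] t ^ (2 * p)) =
      fun t => (1 / 4 : ℝ) ^ p * (sg N t - sg N (t + h)) ^ (2 * p) := by
    funext t
    unfold Gf
    rw [Fin.sum_univ_two]
    simp only [Matrix.cons_val_zero, Matrix.cons_val_one, add_zero]
    rw [pow_mul, pow_mul, ← mul_pow]
    congr 1
    ring
  rw [h5, intervalIntegral.integral_const_mul] at h1
  set J : ℝ := ∫ t in T..(2 * T), (sg N t - sg N (t + h)) ^ (2 * p) with hJ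
  set U : ℝ := gM (2 * p) (VL (Real.log T) ![1 / 2, -(1 / 2)] ![0, h]) with hU
  set q : ℝ := (1 + Real.log r) ^ p with hq
  have h6 : 1 / T * ((1 / 4) ^ p * J) ≤ (C + D) * q := by
    have e1 := (abs_le.1 h1).2
    have e2 := (abs_le.1 h3).2
    have e3 := mul_le_mul_of_nonneg_left h4 hC.le
    linarith
  have h7 : J = 4 ^ p * T * (1 / T * ((1 / 4) ^ p * J)) := by
    have : (4 : ℝ) ^ p * (1 / 4) ^ p = 1 := by
      rw [← mul_pow]; norm_num
    calc J = ((4 : ℝ) ^ p * (1 / 4) ^ p) * (T * (1 / T)) * J := by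
          rw [this, mul_one_div_cancel hTp.ne']; ring
      _ = _ := by ring
  rw [h7]
  calc 4 ^ p * T * (1 / T * ((1 / 4) ^ p * J)) ≤ 4 ^ p * T * ((C + D) * q) :=
        mul_le_mul_of_nonneg_left h6 (by positivity)
    _ = _ := by ring

theorem mom1a {N : ℝ → ℕ} (hN : Monotone N) (h2 : M2 N) (p : ℕ) (B : ℝ) :
    ∃ C T0 : ℝ, 0 < C ∧ 10 ≤ T0 ∧ ∀ T : ℝ, T0 ≤ T → ∀ x y : ℝ, |x| ≤ B → |y| ≤ B → x ≤ y →
    (∫ t in (3 * T / 4)..(3 * T), (sg N (t + x) - sg N (t + y)) ^ (2 * p)) ≤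
      C * T * (1 + Real.log (1 + |x - y| * Real.log T)) ^ p := by
  obtain ⟨C, T0, hC, hT0, H⟩ := block h2 p (2 * B)
  refine ⟨4 * C, max (2 * T0) (4 * B), by positivity, ?_, ?_⟩
  · exact le_max_of_le_left (by linarith)
  intro T hT x y hx hy hxy
  have b1 : 2 * T0 ≤ T := (le_max_left _ _).trans hT
  have b2 : 4 * B ≤ T := (le_max_right _ _).trans hT
  have hTp : 0 < T := by linarith
  have hl : 1 ≤ Real.log T := log_ge_one (by linarith)
  set h : ℝ := y - x with hh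
  have hh0 : 0 ≤ h := by linarith
  have hx' := abs_le.1 hx
  have hy' := abs_le.1 hy
  have hhB : h ≤ 2 * B := by linarith [hx'.1, hy'.2]
  have habs : |x - y| = h := by rw [abs_sub_comm, abs_of_nonneg hh0]
  rw [habs]
  set r : ℝ := 1 + h * Real.log T with hr
  have hr1 : 1 ≤ r := by
    have : 0 ≤ h * Real.log T := by positivity
    linarith
  have hlr : 0 ≤ Real.log r := Real.log_nonneg hr1
  set q : ℝ := (1 + Real.log r) ^ p with hq
  have hq0 : 0 ≤ q := by positivity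
  set f : ℝ → ℝ := fun t => (sg N t - sg N (t + h)) ^ (2 * p) with hf
  have hf0 : ∀ t, 0 ≤ f t := fun t => by
    rw [hf]
    simp only
    rw [pow_mul]
    positivity
  have hfm : Measurable f :=
    ((meas_sg hN).sub ((meas_sg hN).comp (measurable_id.add_const _))).pow_const _
  have hfi : ∀ a b : ℝ, a ≤ b → IntervalIntegrable f volume a b := by
    intro a b hab
    obtain ⟨M1, hM1, hM1'⟩ := bdd_sg hN a b
    obtain ⟨M3, hM3, hM3'⟩ := bdd_sg hN (a + h) (b + h)
    refine ii_of_bdd (M := (M1 + M3) ^ (2 * p)) hab hfm.aestronglyMeasurable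
      (Eventually.of_forall fun t ht => ?_)
    rw [hf]
    simp only
    rw [abs_pow]
    refine pow_le_pow_left₀ (abs_nonneg _) ?_ _
    have u1 := abs_le.1 (hM1' t ht.1.le ht.2)
    have u2 := abs_le.1 (hM3' (t + h) (by linarith [ht.1]) (by linarith [ht.2]))
    rw [abs_le]
    constructor <;> linarith [u1.1, u1.2, u2.1, u2.2]
  have e1 : (∫ t in (3 * T / 4)..(3 * T), (sg N (t + x) - sg N (t + y)) ^ (2 * p)) =
      ∫ t in (3 * T / 4 + x)..(3 * T + x), f t := by
    rw [← intervalIntegral.integral_comp_add_right f x]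
    refine intervalIntegral.integral_congr fun t _ => ?_
    simp only [hf]
    congr 3
    rw [hh]
    ring
  rw [e1]
  have e2 : (∫ t in (3 * T / 4 + x)..(3 * T + x), f t) ≤ ∫ t in (T / 2)..(4 * T), f t :=
    intervalIntegral.integral_mono_interval (by linarith [hx'.1]) (by linarith)
      (by linarith [hx'.2]) (Eventually.of_forall hf0) (hfi _ _ (by linarith))
  have e3 : (∫ t in (T / 2)..(4 * T), f t) =
      (∫ t in (T / 2)..(2 * (T / 2)), f t) + (∫ t in T..(2 * T), f t) +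
        ∫ t in (2 * T)..(2 * (2 * T)), f t := by
    have g1 : 2 * (T / 2) = T := by ring
    have g2 : 2 * (2 * T) = 4 * T := by ring
    rw [g1, g2, intervalIntegral.integral_add_adjacent_intervals (hfi _ _ (by linarith))
      (hfi _ _ (by linarith)), intervalIntegral.integral_add_adjacent_intervals
      (hfi _ _ (by linarith)) (hfi _ _ (by linarith))]
  have hll : ∀ T' : ℝ, 0 < T' → T' ≤ 2 * T → h * Real.log T' ≤ 2 * Real.pi * r := by
    intro T' h0 hT'
    have v1 : Real.log T' ≤ 2 * Real.log T := by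
      calc Real.log T' ≤ Real.log (2 * T) := Real.log_le_log h0 hT'
        _ = Real.log 2 + Real.log T := Real.log_mul (by norm_num) hTp.ne'
        _ ≤ 2 * Real.log T := by linarith [Real.log_two_lt_d9]
    have v2 : h * Real.log T' ≤ h * (2 * Real.log T) := mul_le_mul_of_nonneg_left v1 hh0
    have v3 : h * Real.log T = r - 1 := by rw [hr]; ring
    have v4 : r ≤ Real.pi * r := le_mul_of_one_le_left (by linarith) (by linarith [Real.pi_gt_three])
    calc h * Real.log T' ≤ h * (2 * Real.log T) := v2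
      _ = 2 * (r - 1) := by rw [← v3]; ring
      _ ≤ 2 * Real.pi * r := by linarith
  have f1 := H (T / 2) (by linarith) h r hh0 hhB hr1 (hll _ (by linarith) (by linarith))
  have f2 := H T (by linarith) h r hh0 hhB hr1 (hll _ (by linarith) (by linarith))
  have f3 := H (2 * T) (by linarith) h r hh0 hhB hr1 (hll _ (by linarith) (by linarith))
  rw [e3] at e2
  refine e2.trans ?_
  have f4 : 0 ≤ C * T * q := by positivity
  have f5 : C * (T / 2) * q = C * T * q / 2 := by ring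
  have f6 : C * (2 * T) * q = 2 * (C * T * q) := by ring
  have f7 : 4 * C * T * q = 4 * (C * T * q) := by ring
  rw [f5] at f1
  rw [f6] at f3
  rw [f7]
  linarith

theorem mom1 {N : ℝ → ℕ} (hN : Monotone N) (h2 : M2 N) (p : ℕ) (B : ℝ) :
    ∃ C T0 : ℝ, 0 < C ∧ 10 ≤ T0 ∧ ∀ T : ℝ, T0 ≤ T → ∀ x y : ℝ, |x| ≤ B → |y| ≤ B →
    (∫ t in (3 * T / 4)..(3 * T), (sg N (t + x) - sg N (t + y)) ^ (2 * p)) ≤
      C * T * (1 + Real.log (1 + |x - y| * Real.log T)) ^ p := by
  obtain ⟨C, T0, hC, hT0, H⟩ := mom1a hN h2 p B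
  refine ⟨C, T0, hC, hT0, fun T hT x y hx hy => ?_⟩
  rcases le_total x y with h | h
  · exact H T hT x y hx hy h
  · have h1 := H T hT y x hy hx h
    rw [abs_sub_comm] at h1
    have e : (fun t => (sg N (t + x) - sg N (t + y)) ^ (2 * p)) =
        fun t => (sg N (t + y) - sg N (t + x)) ^ (2 * p) := by
      funext t
      rw [pow_mul, pow_mul]
      congr 1
      ring
    rw [e]
    exact h1

theorem t_MM (N : ℝ → ℕ) (g : ℕ → ℝ) : J_MM N g := by
  rintro ⟨⟨C0, _, hcnt⟩, Z, C1, hZ, hC1, hcmp⟩ hT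
  have hN := hcnt.mono
  have h2 : M2 N := by
    intro k B
    rcases Nat.eq_zero_or_pos k with rfl | hk
    · refine ⟨1, 10, one_pos, le_refl _, fun T hTT m c x r h1 h0 hr hx => ?_⟩
      have hT0 : (0 : ℝ) < T := by linarith
      have hlr : 0 ≤ Real.log r := Real.log_nonneg hr
      simp only [pow_zero]
      rw [gM_zero, intervalIntegral.integral_const, smul_eq_mul, mul_one]
      have : 1 / T * (2 * T - T) = 1 := by field_simp; ring
      rw [this, sub_self, abs_zero]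
      positivity
    · exact mom2 hN hZ hC1 hcmp hT k hk B
  exact ⟨fun p B => mom1 hN h2 p B, h2⟩

end Pool.Agent.U688.MV4
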