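import Pool.Agent.U398.MV.Stm4

/-!
# Project MV4, package MM, part 2: Gaussian moments, powers
-/

set_option autoImplicit false

namespace Pool.Agent.U688.MV4

open MeasureTheory Filter Topology Set Pool.Agent.U398.MV
open scoped Nat

theorem gM_even (i : ℕ) (v : ℝ) : gM (2 * i + 2) v =
    ((2 * i + 2).factorial : ℝ) / (2 ^ (i + 1) * ((i + 1).factorial : ℝ)) * v ^ (i + 1) := by
  unfold gM
  rw [if_pos ⟨i + 1, by ring⟩]
  have h1 : (2 * i + 2) / 2 = i + 1 := by omega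
  have h2 : 2 * i + 2 - 1 = 2 * i + 1 := by omega
  rw [h1, h2]
  congr 1
  have h3 := Nat.factorial_eq_mul_doubleFactorial (2 * i + 1)
  have h4 := Nat.doubleFactorial_two_mul (i + 1)
  have h5 : (2 * i + 1 + 1) = 2 * (i + 1) := by ring
  rw [eq_div_iff (by positivity)]
  rw [show 2 * i + 2 = 2 * i + 1 + 1 from rfl, h3, h5, h4]
  push_cast
  ring

theorem gM_odd (i : ℕ) (v : ℝ) : gM (2 * i + 1) v = 0 := by
  unfold gM
  rw [if_neg (by rw [Nat.not_even_iff_odd]; exact ⟨i, rfl⟩)]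

theorem gM_zero (v : ℝ) : gM 0 v = 1 := by
  unfold gM
  simp

theorem th3_gM (hT : S_TH3) (k : ℕ) (hk : 1 ≤ k) : ∃ C T0 : ℝ, 0 < C ∧ 10 ≤ T0 ∧ ∀ T : ℝ, T0 ≤ T →
    ∀ (n : ℕ) (a h : Fin n → ℝ), (∑ i, |a i|) ≤ 1 →
    (∀ i, 0 ≤ h i ∧ h i ≤ T / (Real.log T) ^ 2) →
    |1 / T * (∫ t in T..(2 * T), (∑ i, a i * pS (t + h i)) ^ k) - gM k (Vh T a h)| ≤
      C * (1 + |Vh T a h|) ^ (((k : ℝ) - 1) / 2) := by
  obtain ⟨i, hi | hi⟩ := Nat.even_or_odd' k
  · obtain ⟨j, rfl⟩ : ∃ j, i = j + 1 := ⟨i - 1, by omega⟩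
    obtain ⟨C, T0, hC, hT0, h⟩ := hT j
    refine ⟨C, T0, hC, hT0, fun T hTT n a h' h1 h2 => ?_⟩
    have h3 := (h T hTT n a h' h1 h2).1
    have hk2 : k = 2 * j + 2 := by omega
    subst hk2
    rw [gM_even]
    refine h3.trans (mul_le_mul_of_nonneg_left ?_ hC.le)
    rw [← Real.rpow_natCast]
    refine Real.rpow_le_rpow_of_exponent_le (by linarith [abs_nonneg (Vh T a h')]) ?_
    push_cast
    linarith
  · obtain ⟨C, T0, hC, hT0, h⟩ := hT i
    refine ⟨C, T0, hC, hT0, fun T hTT n a h' h1 h2 => ?_⟩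
    have h3 := (h T hTT n a h' h1 h2).2
    subst hi
    rw [gM_odd, sub_zero]
    refine h3.trans (mul_le_mul_of_nonneg_left ?_ hC.le)
    rw [← Real.rpow_natCast]
    refine Real.rpow_le_rpow_of_exponent_le (by linarith [abs_nonneg (Vh T a h')]) ?_
    push_cast
    linarith

theorem th3_even (hT : S_TH3) (j : ℕ) : ∃ C T0 : ℝ, 0 < C ∧ 10 ≤ T0 ∧ ∀ T : ℝ, T0 ≤ T →
    ∀ (n : ℕ) (a h : Fin n → ℝ), (∑ i, |a i|) ≤ 1 →
    (∀ i, 0 ≤ h i ∧ h i ≤ T / (Real.log T) ^ 2) →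
    1 / T * (∫ t in T..(2 * T), (∑ i, a i * pS (t + h i)) ^ (2 * j)) ≤
      C * (1 + |Vh T a h|) ^ j := by
  rcases Nat.eq_zero_or_pos j with rfl | hj
  · refine ⟨1, 10, one_pos, le_refl _, fun T hTT n a h h1 h2 => ?_⟩
    simp only [mul_zero, pow_zero, mul_one]
    rw [intervalIntegral.integral_const, smul_eq_mul, mul_one]
    have hT0 : (0 : ℝ) < T := by linarith
    have : 1 / T * (2 * T - T) = 1 := by field_simp; ring
    rw [this]
  · obtain ⟨i, rfl⟩ : ∃ i, j = i + 1 := ⟨j - 1, by omega⟩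
    obtain ⟨C, T0, hC, hT0, h⟩ := hT i
    set D : ℝ := ((2 * i + 2).factorial : ℝ) / (2 ^ (i + 1) * ((i + 1).factorial : ℝ)) with hD
    have hD0 : 0 ≤ D := by positivity
    refine ⟨C + D, T0, by positivity, hT0, fun T hTT n a h' h1 h2 => ?_⟩
    have h3 := (h T hTT n a h' h1 h2).1
    have h4 := (abs_le.1 h3).2
    have hV := abs_nonneg (Vh T a h')
    have e1 : Vh T a h' ^ (i + 1) ≤ (1 + |Vh T a h'|) ^ (i + 1) := by
      calc Vh T a h' ^ (i + 1) ≤ |Vh T a h' ^ (i + 1)| := le_abs_self _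
        _ = |Vh T a h'| ^ (i + 1) := abs_pow _ _
        _ ≤ _ := by gcongr; linarith
    have e2 : (1 + |Vh T a h'|) ^ i ≤ (1 + |Vh T a h'|) ^ (i + 1) :=
      pow_le_pow_right₀ (by linarith) (by omega)
    have e3 : 2 * (i + 1) = 2 * i + 2 := by ring
    rw [e3]
    have e4 := mul_le_mul_of_nonneg_left e1 hD0
    have e5 := mul_le_mul_of_nonneg_left e2 hC.le
    linarith

theorem pow_cmp (k : ℕ) (hk : 1 ≤ k) (C : ℝ) (hC : 0 ≤ C) : ∃ D : ℝ, 0 < D ∧ ∀ f g W : ℝ,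
    |g - f| ≤ C → 1 ≤ W → |g ^ k - f ^ k| ≤ D * (W + f ^ (2 * (k - 1)) / W) := by
  obtain ⟨n, rfl⟩ : ∃ n, k = n + 1 := ⟨k - 1, by omega⟩
  refine ⟨C * (n + 1) * 2 ^ (n - 1) * (1 + C ^ n) + 1, by positivity, ?_⟩
  intro f g W h hW
  simp only [Nat.add_sub_cancel]
  have hW0 : 0 < W := by linarith
  have h1 := abs_pow_sub_pow_le g f (n + 1)
  simp only [Nat.add_sub_cancel] at h1
  have h2 : max |g| |f| ≤ |f| + C := by
    apply max_le
    · have : |g| ≤ |g - f| + |f| := by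
        have := abs_add_le (g - f) f
        simpa using this
      linarith
    · linarith
  have h3 : max |g| |f| ^ n ≤ (|f| + C) ^ n :=
    pow_le_pow_left₀ (le_max_of_le_left (abs_nonneg _)) h2 n
  have h4 : (|f| + C) ^ n ≤ 2 ^ (n - 1) * (|f| ^ n + C ^ n) := add_pow_le (abs_nonneg f) hC n
  have h5 : |f| ^ n ≤ W + f ^ (2 * n) / W := by
    have e0 : f ^ (2 * n) = (|f| ^ n) ^ 2 := by
      rw [← pow_mul, mul_comm n 2, pow_mul, pow_mul, sq_abs]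
    rw [e0]
    set z : ℝ := |f| ^ n
    have hz : 0 ≤ z := by positivity
    have e1 : W + z ^ 2 / W - z = ((W - z / 2) ^ 2 + 3 / 4 * z ^ 2) / W := by
      field_simp
      ring
    have e2 : 0 ≤ ((W - z / 2) ^ 2 + 3 / 4 * z ^ 2) / W := by positivity
    linarith
  have h6 : 0 ≤ f ^ (2 * n) / W := by
    have : 0 ≤ f ^ (2 * n) := by rw [pow_mul]; positivity
    positivity
  have hCn : 0 ≤ C ^ n := by positivity
  have h7 : |f| ^ n + C ^ n ≤ (1 + C ^ n) * (W + f ^ (2 * n) / W) := by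
    nlinarith [mul_nonneg hCn h6, mul_nonneg hCn (by linarith : 0 ≤ W - 1)]
  calc |g ^ (n + 1) - f ^ (n + 1)| ≤ |g - f| * ((n + 1 : ℕ) : ℝ) * max |g| |f| ^ n := h1
    _ ≤ C * ((n + 1 : ℕ) : ℝ) * (2 ^ (n - 1) * ((1 + C ^ n) * (W + f ^ (2 * n) / W))) := by
        refine mul_le_mul (mul_le_mul_of_nonneg_right h (by positivity)) ?_ (by positivity)
          (by positivity)
        exact h3.trans (h4.trans (mul_le_mul_of_nonneg_left h7 (by positivity)))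
    _ = C * (n + 1) * 2 ^ (n - 1) * (1 + C ^ n) * (W + f ^ (2 * n) / W) := by push_cast; ring
    _ ≤ (C * (n + 1) * 2 ^ (n - 1) * (1 + C ^ n) + 1) * (W + f ^ (2 * n) / W) := by
        have : 0 ≤ W + f ^ (2 * n) / W := by linarith
        linarith

theorem gM_cmp (k : ℕ) (hk : 1 ≤ k) : ∃ D : ℝ, 0 < D ∧ ∀ u v M : ℝ, |u| ≤ M → |v| ≤ M → 1 ≤ M →
    |gM k u - gM k v| ≤ D * |u - v| * M ^ (((k : ℝ) - 1) / 2) := by
  obtain ⟨i, hi | hi⟩ := Nat.even_or_odd' k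
  · obtain ⟨j, rfl⟩ : ∃ j, i = j + 1 := ⟨i - 1, by omega⟩
    have hk2 : k = 2 * j + 2 := by omega
    subst hk2
    set E : ℝ := ((2 * j + 2).factorial : ℝ) / (2 ^ (j + 1) * ((j + 1).factorial : ℝ)) with hE
    have hE0 : 0 < E := by positivity
    refine ⟨E * (j + 1), by positivity, ?_⟩
    intro u v M hu hv hM
    rw [gM_even, gM_even, ← mul_sub, abs_mul, abs_of_pos hE0]
    have h1 := abs_pow_sub_pow_le u v (j + 1)
    simp only [Nat.add_sub_cancel] at h1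
    have h2 : max |u| |v| ^ j ≤ M ^ j :=
      pow_le_pow_left₀ (le_max_of_le_left (abs_nonneg _)) (max_le hu hv) j
    have h3 : M ^ j ≤ M ^ ((((2 * j + 2 : ℕ) : ℝ) - 1) / 2) := by
      rw [← Real.rpow_natCast]
      refine Real.rpow_le_rpow_of_exponent_le hM ?_
      push_cast
      linarith
    calc E * |u ^ (j + 1) - v ^ (j + 1)| ≤ E * (|u - v| * ((j + 1 : ℕ) : ℝ) * max |u| |v| ^ j) :=
          mul_le_mul_of_nonneg_left h1 hE0.le
      _ ≤ E * (|u - v| * ((j + 1 : ℕ) : ℝ) * M ^ ((((2 * j + 2 : ℕ) : ℝ) - 1) / 2)) := by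
          refine mul_le_mul_of_nonneg_left ?_ hE0.le
          exact mul_le_mul_of_nonneg_left (h2.trans h3) (by positivity)
      _ = _ := by push_cast; ring
  · subst hi
    refine ⟨1, one_pos, ?_⟩
    intro u v M hu hv hM
    rw [gM_odd, gM_odd, sub_zero, abs_zero]
    positivity

theorem gM_bd (k : ℕ) : ∃ D : ℝ, 0 < D ∧ ∀ v M : ℝ, |v| ≤ M → 1 ≤ M →
    |gM (2 * k) v| ≤ D * M ^ k := by
  refine ⟨((2 * k - 1)‼ : ℝ) + 1, by positivity, ?_⟩
  intro v M hv hM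
  unfold gM
  rw [if_pos ⟨k, by ring⟩, abs_mul, abs_pow, abs_of_nonneg (by positivity)]
  have h1 : 2 * k / 2 = k := by omega
  rw [h1]
  have h2 : |v| ^ k ≤ M ^ k := pow_le_pow_left₀ (abs_nonneg _) hv k
  have h3 : 0 ≤ |v| ^ k := by positivity
  refine mul_le_mul (by linarith) h2 h3 (by positivity)

end Pool.Agent.U688.MV4
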