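import Pool.Agent.U688.MV4.MMa
import Pool.Agent.U688.MV4.MMb

/-!
# Project MV4, package MM, part 3: the moments of the fluctuations
-/

set_option autoImplicit false

namespace Pool.Agent.U688.MV4

open MeasureTheory Filter Topology Set Pool.Agent.U398.MV
open scoped Nat

theorem large (B : ℝ) : ∃ T0 : ℝ, 10 ≤ T0 ∧ ∀ T : ℝ, T0 ≤ T →
    B ≤ T / (Real.log T) ^ 2 ∧ B ≤ T := by
  have h := (Real.isLittleO_pow_log_id_atTop (n := 2)).bound (c := 1 / (|B| + 1)) (by positivity)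
  obtain ⟨T1, hT1⟩ := (eventually_atTop.1 h)
  refine ⟨max 10 (max T1 B), le_max_left _ _, fun T hT => ?_⟩
  have a1 : 10 ≤ T := (le_max_left _ _).trans hT
  have a2 : T1 ≤ T := ((le_max_left _ _).trans (le_max_right _ _)).trans hT
  have a3 : B ≤ T := ((le_max_right _ _).trans (le_max_right _ _)).trans hT
  refine ⟨?_, a3⟩
  have h1 := hT1 T a2
  have hl : 1 ≤ Real.log T := log_ge_one a1
  simp only [id, Real.norm_eq_abs] at h1
  rw [abs_of_nonneg (by positivity : 0 ≤ Real.log T ^ 2), abs_of_pos (by linarith : 0 < T)] at h1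
  rw [le_div_iff₀ (by positivity)]
  have hB : B ≤ |B| + 1 := by linarith [le_abs_self B]
  calc B * Real.log T ^ 2 ≤ (|B| + 1) * Real.log T ^ 2 :=
        mul_le_mul_of_nonneg_right hB (by positivity)
    _ ≤ (|B| + 1) * (1 / (|B| + 1) * T) := mul_le_mul_of_nonneg_left h1 (by positivity)
    _ = T := by field_simp

theorem ae_cmp {N : ℝ → ℕ} {Z : Set ℝ} {C B : ℝ} (hZ : volume Z = 0) (hC : 0 < C)
    (h : ∀ t u : ℝ, t ∉ Z → u ∉ Z → 10 ≤ t → t < u → u ≤ 2 * t →
      |(pS u - pS t) - (sg N u - sg N t)| ≤ C)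
    {m : ℕ} (c x : Fin m → ℝ) (hc : (∑ i, |c i|) ≤ 1) (h0 : (∑ i, c i) = 0)
    (hx : ∀ i, 0 ≤ x i ∧ x i ≤ B) :
    ∀ᵐ t : ℝ, 10 ≤ t → B ≤ t → |Gf N c x t - ∑ i, c i * pS (t + x i)| ≤ C := by
  have hZ' : ∀ᵐ t : ℝ, t ∉ Z := measure_eq_zero_iff_ae_notMem.1 hZ
  have hs : ∀ᵐ t : ℝ, ∀ i, t + x i ∉ Z := by
    rw [ae_all_iff]
    intro i
    exact (quasiMeasurePreserving_add_right volume (x i)).ae hZ'
  filter_upwards [hZ', hs] with t ht1 ht2 h10 hB
  have e : Gf N c x t - ∑ i, c i * pS (t + x i) =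
      ∑ i, c i * ((sg N (t + x i) - sg N t) - (pS (t + x i) - pS t)) := by
    unfold Gf
    have e1 : ∀ i, c i * ((sg N (t + x i) - sg N t) - (pS (t + x i) - pS t)) =
        c i * sg N (t + x i) - c i * pS (t + x i) - c i * (sg N t - pS t) := by
      intro i; ring
    simp only [e1, Finset.sum_sub_distrib, ← Finset.sum_mul, h0, zero_mul, sub_zero]
  rw [e]
  refine (Finset.abs_sum_le_sum_abs _ _).trans ?_
  calc ∑ i, |c i * ((sg N (t + x i) - sg N t) - (pS (t + x i) - pS t))| ≤ ∑ i, |c i| * C := by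
        refine Finset.sum_le_sum fun i _ => ?_
        rw [abs_mul]
        refine mul_le_mul_of_nonneg_left ?_ (abs_nonneg _)
        rcases (hx i).1.eq_or_lt with h1 | h1
        · rw [← h1]
          simp only [add_zero, sub_self, abs_zero]
          exact hC.le
        · rw [abs_sub_comm]
          exact h t (t + x i) ht1 (ht2 i) h10 (by linarith) (by linarith [(hx i).2])
    _ = (∑ i, |c i|) * C := by rw [Finset.sum_mul]
    _ ≤ 1 * C := by gcongr
    _ = C := one_mul _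

theorem mom2 {N : ℝ → ℕ} (hN : Monotone N) {Z : Set ℝ} {C1 : ℝ} (hZ : volume Z = 0) (hC1 : 0 < C1)
    (hcmp : ∀ t u : ℝ, t ∉ Z → u ∉ Z → 10 ≤ t → t < u → u ≤ 2 * t →
      |(pS u - pS t) - (sg N u - sg N t)| ≤ C1)
    (hT : S_TH3) (k : ℕ) (hk : 1 ≤ k) (B : ℝ) :
    ∃ C T0 : ℝ, 0 < C ∧ 10 ≤ T0 ∧ ∀ T : ℝ, T0 ≤ T → ∀ (m : ℕ) (c x : Fin m → ℝ) (r : ℝ),
    (∑ i, |c i|) ≤ 1 → (∑ i, c i) = 0 → 1 ≤ r →
    (∀ i, 0 ≤ x i ∧ x i ≤ B ∧ x i * Real.log T ≤ 2 * Real.pi * r) →
    |1 / T * (∫ t in T..(2 * T), Gf N c x t ^ k) - gM k (VL (Real.log T) c x)| ≤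
      C * (1 + Real.log r) ^ (((k : ℝ) - 1) / 2) := by
  obtain ⟨C2, T2, hC2, hT2, H2⟩ := th3_gM hT k hk
  obtain ⟨C3, T3, hC3, hT3, H3⟩ := th3_even hT (k - 1)
  obtain ⟨D, hD, HD⟩ := pow_cmp k hk C1 hC1.le
  obtain ⟨E, hE, HE⟩ := gM_cmp k hk
  obtain ⟨C4, hC4, H4⟩ := var_cmp B
  obtain ⟨T5, hT5, H5⟩ := large B
  set e : ℝ := ((k : ℝ) - 1) / 2 with he
  set P : ℝ := (C4 + 2) ^ e with hP
  have hP0 : 0 < P := by positivity
  refine ⟨(D * (1 + C3) + C2 + E * C4) * P, max T2 (max T3 T5), by positivity,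
    hT2.trans (le_max_left _ _), ?_⟩
  intro T hTT m c x r hc h0 hr hx
  have t2 : T2 ≤ T := (le_max_left _ _).trans hTT
  have t3 : T3 ≤ T := ((le_max_left _ _).trans (le_max_right _ _)).trans hTT
  have t5 : T5 ≤ T := ((le_max_right _ _).trans (le_max_right _ _)).trans hTT
  have t10 : 10 ≤ T := hT2.trans t2
  have hT0 : 0 < T := by linarith
  have hL : 1 ≤ Real.log T := log_ge_one t10
  obtain ⟨hB1, hB2⟩ := H5 T t5
  have hx1 : ∀ i, 0 ≤ x i ∧ x i ≤ T / (Real.log T) ^ 2 :=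
    fun i => ⟨(hx i).1, (hx i).2.1.trans hB1⟩
  have hx2 : ∀ i, 0 ≤ x i ∧ x i ≤ B := fun i => ⟨(hx i).1, (hx i).2.1⟩
  have k2 := H2 T t2 m c x hc hx1
  have hE3 := H3 T t3 m c x hc hx1
  set V : ℝ := Vh T c x with hV
  set U : ℝ := VL (Real.log T) c x with hU
  have hlr : 0 ≤ Real.log r := Real.log_nonneg hr
  have hUb : |U| ≤ 1 + Real.log r :=
    VL_bound _ r c x (by linarith) hr hc (fun i => ⟨(hx i).1, (hx i).2.2⟩)
  have hVU : |V - U| ≤ C4 := H4 T t10 m c x hc h0 hx2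
  have hVb : |V| ≤ C4 + (1 + Real.log r) := by
    rw [abs_le] at hUb hVU ⊢
    constructor <;> linarith [hUb.1, hUb.2, hVU.1, hVU.2]
  set lr : ℝ := 1 + Real.log r with hlrd
  have hlr1 : 1 ≤ lr := by linarith
  have hk1 : (0:ℝ) ≤ e := by
    have : (1:ℝ) ≤ k := by exact_mod_cast hk
    rw [he]; linarith
  have hC4lr : C4 ≤ C4 * lr := le_mul_of_one_le_right hC4.le hlr1
  have hClr : (C4 + 2) * lr = C4 * lr + 2 * lr := by ring
  have hlrU : |U| ≤ (C4 + 2) * lr := by linarith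
  have hlrV : |V| ≤ (C4 + 2) * lr := by linarith
  have hlrV1 : 1 + |V| ≤ (C4 + 2) * lr := by linarith
  have hlrM : 1 ≤ (C4 + 2) * lr := by linarith [abs_nonneg V]
  set W : ℝ := (1 + |V|) ^ e with hW
  have hV0 := abs_nonneg V
  have hW1 : 1 ≤ W := Real.one_le_rpow (by linarith) hk1
  have hW0 : 0 < W := by linarith
  have hWb : W ≤ P * lr ^ e := by
    rw [hP, ← Real.mul_rpow (by positivity) (by positivity)]
    exact Real.rpow_le_rpow (by positivity) hlrV1 hk1
  have hWsq : (1 + |V|) ^ (k - 1) = W * W := by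
    rw [hW, ← Real.rpow_add (by positivity), ← Real.rpow_natCast]
    congr 1
    rw [Nat.cast_sub hk, he]
    push_cast
    ring
  set F : ℝ → ℝ := fun t => ∑ i, c i * pS (t + x i) with hF
  have hFm : Measurable F := Finset.measurable_sum _ fun i _ =>
    (meas_pS.comp (measurable_id.add_const _)).const_mul _
  have hae := ae_cmp hZ hC1 hcmp c x hc h0 hx2
  obtain ⟨M, hM0, hM⟩ := bdd_Gf hN c x T (2 * T)
  have hT2T : T ≤ 2 * T := by linarith
  have hae2 : ∀ᵐ t : ℝ, t ∈ Ioc T (2 * T) → |Gf N c x t - F t| ≤ C1 := by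
    filter_upwards [hae] with t ht hm
    exact ht (by linarith [hm.1]) (by linarith [hm.1])
  have hFb : ∀ᵐ t : ℝ, t ∈ Ioc T (2 * T) → |F t| ≤ M + C1 := by
    filter_upwards [hae2] with t ht hm
    have h1 := ht hm
    have h2 := hM t hm.1.le hm.2
    rw [abs_le] at h1 h2 ⊢
    constructor <;> linarith [h1.1, h1.2, h2.1, h2.2]
  have iG : ∀ n : ℕ, IntervalIntegrable (fun t => Gf N c x t ^ n) volume T (2 * T) := by
    intro n
    refine ii_of_bdd (M := M ^ n) hT2T ((meas_Gf hN c x).pow_const n).aestronglyMeasurable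
      (Eventually.of_forall fun t ht => ?_)
    rw [abs_pow]
    exact pow_le_pow_left₀ (abs_nonneg _) (hM t ht.1.le ht.2) n
  have iF : ∀ n : ℕ, IntervalIntegrable (fun t => F t ^ n) volume T (2 * T) := by
    intro n
    refine ii_of_bdd (M := (M + C1) ^ n) hT2T (hFm.pow_const n).aestronglyMeasurable ?_
    filter_upwards [hFb] with t ht hm
    rw [abs_pow]
    exact pow_le_pow_left₀ (abs_nonneg _) (ht hm) n
  have iR : IntervalIntegrable (fun t => D * (W + F t ^ (2 * (k - 1)) / W)) volume T (2 * T) :=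
    ((intervalIntegrable_const).add ((iF _).div_const W)).const_mul D
  have key : |(∫ t in T..(2 * T), Gf N c x t ^ k) - ∫ t in T..(2 * T), F t ^ k| ≤
      ∫ t in T..(2 * T), D * (W + F t ^ (2 * (k - 1)) / W) := by
    rw [← intervalIntegral.integral_sub (iG k) (iF k), ← Real.norm_eq_abs]
    refine intervalIntegral.norm_integral_le_of_norm_le hT2T ?_ iR
    filter_upwards [hae2] with t ht hm
    rw [Real.norm_eq_abs]
    exact HD (F t) (Gf N c x t) W (ht hm) hW1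
  have key2 : (∫ t in T..(2 * T), D * (W + F t ^ (2 * (k - 1)) / W)) =
      D * (T * W + (∫ t in T..(2 * T), F t ^ (2 * (k - 1))) / W) := by
    rw [intervalIntegral.integral_const_mul,
      intervalIntegral.integral_add intervalIntegrable_const ((iF _).div_const W),
      intervalIntegral.integral_const, intervalIntegral.integral_div, smul_eq_mul]
    ring
  rw [key2] at key
  rw [hWsq] at hE3
  set IG : ℝ := ∫ t in T..(2 * T), Gf N c x t ^ k with hIG
  set IF : ℝ := ∫ t in T..(2 * T), F t ^ k with hIF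
  set I2 : ℝ := ∫ t in T..(2 * T), F t ^ (2 * (k - 1)) with hI2
  have k1 : |1 / T * IG - 1 / T * IF| ≤ D * (1 + C3) * W := by
    rw [← mul_sub, abs_mul, abs_of_pos (by positivity : (0 : ℝ) < 1 / T)]
    have q1 : 1 / T * |IG - IF| ≤ 1 / T * (D * (T * W + I2 / W)) :=
      mul_le_mul_of_nonneg_left key (by positivity)
    have q2 : 1 / T * (D * (T * W + I2 / W)) = D * (W + (1 / T * I2) / W) := by field_simp
    have q3 : (1 / T * I2) / W ≤ C3 * W := by
      rw [div_le_iff₀ hW0]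
      linarith
    rw [q2] at q1
    refine q1.trans ?_
    have q4 := mul_le_mul_of_nonneg_left q3 hD.le
    linarith
  have k3 : |gM k V - gM k U| ≤ E * C4 * (P * lr ^ e) := by
    have q1 := HE V U ((C4 + 2) * lr) hlrV hlrU hlrM
    have q2 : ((C4 + 2) * lr) ^ e = P * lr ^ e := by
      rw [hP]
      exact Real.mul_rpow (by positivity) (by positivity)
    rw [q2] at q1
    refine q1.trans ?_
    exact mul_le_mul_of_nonneg_right (mul_le_mul_of_nonneg_left hVU hE.le) (by positivity)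
  have k4 : |1 / T * IG - gM k U| ≤
      |1 / T * IG - 1 / T * IF| + |1 / T * IF - gM k V| + |gM k V - gM k U| := by
    have q1 := abs_add_three (1 / T * IG - 1 / T * IF) (1 / T * IF - gM k V) (gM k V - gM k U)
    have q2 : 1 / T * IG - 1 / T * IF + (1 / T * IF - gM k V) + (gM k V - gM k U) =
      1 / T * IG - gM k U := by ring
    rw [q2] at q1
    exact q1
  have k5 : D * (1 + C3) * W ≤ D * (1 + C3) * (P * lr ^ e) :=
    mul_le_mul_of_nonneg_left hWb (by positivity)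
  have k6 : C2 * W ≤ C2 * (P * lr ^ e) := mul_le_mul_of_nonneg_left hWb hC2.le
  calc _ ≤ _ := k4
    _ ≤ D * (1 + C3) * (P * lr ^ e) + C2 * (P * lr ^ e) + E * C4 * (P * lr ^ e) := by
        linarith
    _ = _ := by ring

end Pool.Agent.U688.MV4
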